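import Pool.Agent.Helper57.TG.CasDefs

/-!
# The Casimir operator of two strands commutes with the generators
-/

namespace Pool.Agent.Helper9.Kashaev

open Finset
open Pool.Agent.Helper9.TG
open Pool.Agent.Helper9 (TB.lam TB.bb)
open scoped Matrix

/-! ### the operator on two strands -/

/-- the Casimir operator `(v - v⁻¹)² F E + v K + v⁻¹ K⁻¹` -/
noncomputable def h57C (N : ℕ) (g : List ℕ → ℂ) (u : List ℕ) : ℂ :=
  (v N - (v N)⁻¹) ^ 2 * Fop N (Eop N g) u + (v N ^ (wtl N u + 1) + v N ^ (-wtl N u - 1)) * g u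

lemma h57_Cas_eq (N : ℕ) (f : List ℕ → ℂ) (a b : ℕ) (w : List ℕ) :
    Cas N f (a :: b :: w) = h57C N (fun u => f (u ++ w)) [a, b] := by
  simp only [Cas, h57C, wtl, add_zero, List.cons_append, List.nil_append]

lemma h57_vd2 {N : ℕ} (hN : 2 ≤ N) (x : ℤ) :
    (v N - (v N)⁻¹) ^ 2 * qi N x = v N ^ (x + 1) - v N ^ (x - 1) - v N ^ (1 - x) + v N ^ (-x - 1) := by
  have h := qi_mul_vd hN x
  have hv := v_ne N
  have e1 : v N ^ (x + 1) = v N ^ x * v N := by rw [zpow_add₀ hv, zpow_one]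
  have e2 : v N ^ (x - 1) = v N ^ x * (v N)⁻¹ := by rw [zpow_sub₀ hv, zpow_one]; rfl
  have e3 : v N ^ (1 - x) = v N ^ (-x) * v N := by
    rw [show (1 : ℤ) - x = -x + 1 by ring, zpow_add₀ hv, zpow_one]
  have e4 : v N ^ (-x - 1) = v N ^ (-x) * (v N)⁻¹ := by rw [zpow_sub₀ hv, zpow_one]; rfl
  rw [e1, e2, e3, e4]
  linear_combination (v N - (v N)⁻¹) * h

/-- two strands: commutation with `E` -/
lemma h57C_E {N : ℕ} (hN : 2 ≤ N) (g : List ℕ → ℂ)
    (hg : ∀ w, (∃ x ∈ w, N ≤ x) → Eop N g w = 0) (u : List ℕ) :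
    Eop N (h57C N g) u = h57C N (Eop N g) u := by
  have h1 : Eop N (h57C N g) u = (v N - (v N)⁻¹) ^ 2 * Eop N (Fop N (Eop N g)) u +
      (v N ^ (wtl N u - 2 + 1) + v N ^ (-(wtl N u - 2) - 1)) * Eop N g u := by
    have h2 := Eop_add N (fun u => (v N - (v N)⁻¹) ^ 2 * Fop N (Eop N g) u)
      (fun u => (v N ^ (wtl N u + 1) + v N ^ (-wtl N u - 1)) * g u) u
    have h3 := Eop_wtl (N := N) (fun y => v N ^ (y + 1) + v N ^ (-y - 1)) g u
    rw [Eop_smul] at h2
    rw [h3] at h2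
    exact h2
  have h4 := EF_comm hN (Eop N g) hg u
  have h5 := h57_vd2 hN (wtl N u)
  have e1 : wtl N u - 2 + 1 = wtl N u - 1 := by ring
  have e2 : -(wtl N u - 2) - 1 = 1 - wtl N u := by ring
  rw [h1, e1, e2]
  unfold h57C
  linear_combination (v N - (v N)⁻¹) ^ 2 * h4 + Eop N g u * h5

/-- two strands: commutation with `F` -/
lemma h57C_F {N : ℕ} (hN : 2 ≤ N) (g : List ℕ → ℂ)
    (hg : ∀ w, (∃ x ∈ w, N ≤ x) → g w = 0) (u : List ℕ) :
    Fop N (h57C N g) u = h57C N (Fop N g) u := by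
  have h1 : Fop N (h57C N g) u = (v N - (v N)⁻¹) ^ 2 * Fop N (Fop N (Eop N g)) u +
      (v N ^ (wtl N u + 2 + 1) + v N ^ (-(wtl N u + 2) - 1)) * Fop N g u := by
    have h2 := Fop_add N (fun u => (v N - (v N)⁻¹) ^ 2 * Fop N (Eop N g) u)
      (fun u => (v N ^ (wtl N u + 1) + v N ^ (-wtl N u - 1)) * g u) u
    have h3 := Fop_wtl (N := N) (fun y => v N ^ (y + 1) + v N ^ (-y - 1)) g u
    rw [Fop_smul] at h2
    rw [h3] at h2
    exact h2
  have h4 : Fop N (Eop N (Fop N g)) u = Fop N (Fop N (Eop N g)) u +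
      qi N (wtl N u + 2) * Fop N g u := by
    have h5 : Eop N (Fop N g) = fun w => Fop N (Eop N g) w + qi N (wtl N w) * g w := by
      funext w
      have := EF_comm hN g hg w
      linear_combination this
    rw [h5, Fop_add N (Fop N (Eop N g)) (fun w => qi N (wtl N w) * g w)]
    congr 1
    exact Fop_wtl (N := N) (fun y => qi N y) g u
  have h5 := h57_vd2 hN (wtl N u + 2)
  have e1 : wtl N u + 2 - 1 = wtl N u + 1 := by ring
  have e2 : 1 - (wtl N u + 2) = -wtl N u - 1 := by ring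
  rw [e1, e2] at h5
  rw [h1]
  unfold h57C
  rw [h4]
  linear_combination (-Fop N g u) * h5

/-! ### the explicit form -/

noncomputable def h57A (N a b : ℕ) : ℂ :=
  (v N - (v N)⁻¹) ^ 2 * ((if 1 ≤ a ∧ a < N then ecoef N a * v N ^ (wt N b) else 0) +
    v N ^ (-wt N a) * (if 1 ≤ b ∧ b < N then ecoef N b else 0)) +
    (v N ^ (wt N a + wt N b + 1) + v N ^ (-(wt N a + wt N b) - 1))

noncomputable def h57B (N a b : ℕ) : ℂ :=
  (v N - (v N)⁻¹) ^ 2 * (if 1 ≤ a ∧ a < N then ecoef N (b + 1) else 0)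

noncomputable def h57D (N a b : ℕ) : ℂ :=
  (v N - (v N)⁻¹) ^ 2 * (v N ^ (-wt N a) *
    (if 1 ≤ b ∧ b < N then ecoef N (a + 1) * v N ^ (wt N (b - 1)) else 0))

lemma h57C_expl (N : ℕ) (g : List ℕ → ℂ) (a b : ℕ) : h57C N g [a, b] =
    h57A N a b * g [a, b] + h57B N a b * g [a - 1, b + 1] + h57D N a b * g [a + 1, b - 1] := by
  unfold h57C h57A h57B h57D
  simp only [Fop, Eop, wtl, add_zero, zpow_zero, mul_one]
  by_cases ha : 1 ≤ a ∧ a < N
  · have e : a - 1 + 1 = a := by omega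
    by_cases hb : 1 ≤ b ∧ b < N
    · have e' : b - 1 + 1 = b := by omega
      simp only [if_pos ha, if_pos hb, e, e']
      ring
    · simp only [if_pos ha, if_neg hb, e]
      ring
  · by_cases hb : 1 ≤ b ∧ b < N
    · have e' : b - 1 + 1 = b := by omega
      simp only [if_neg ha, if_pos hb, e']
      ring
    · simp only [if_neg ha, if_neg hb]
      ring

lemma h57_Cas_expl (N : ℕ) (f : List ℕ → ℂ) (a b : ℕ) (w : List ℕ) : Cas N f (a :: b :: w) =
    h57A N a b * f (a :: b :: w) + h57B N a b * f ((a - 1) :: (b + 1) :: w) +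
      h57D N a b * f ((a + 1) :: (b - 1) :: w) := by
  rw [h57_Cas_eq, h57C_expl]
  rfl

lemma h57B_zero {N a b : ℕ} (h : ¬ (1 ≤ a ∧ a < N ∧ b + 1 < N)) : h57B N a b = 0 := by
  unfold h57B
  by_cases ha : 1 ≤ a ∧ a < N
  · rw [if_pos ha, ecoef_ge (by omega), mul_zero]
  · rw [if_neg ha, mul_zero]

lemma h57D_zero {N a b : ℕ} (h : ¬ (1 ≤ b ∧ b < N ∧ a + 1 < N)) : h57D N a b = 0 := by
  unfold h57D
  by_cases hb : 1 ≤ b ∧ b < N
  · rw [if_pos hb, ecoef_ge (by omega)]; ring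
  · rw [if_neg hb]; ring

lemma h57_Cas_nil (N : ℕ) (f : List ℕ → ℂ) : Cas N f [] = 0 := rfl
lemma h57_Cas_one (N : ℕ) (f : List ℕ → ℂ) (a : ℕ) : Cas N f [a] = 0 := rfl

/-- multiplication by a function of the weight -/
lemma h57_Cas_wtl {N : ℕ} (φ : ℤ → ℂ) (g : List ℕ → ℂ) (w : List ℕ) :
    Cas N (fun u => φ (wtl N u) * g u) w = φ (wtl N w) * Cas N g w := by
  rcases w with _ | ⟨a, _ | ⟨b, w⟩⟩
  · simp [h57_Cas_nil]
  · simp [h57_Cas_one]
  rw [h57_Cas_expl, h57_Cas_expl]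
  have hB : h57B N a b * φ (wtl N ((a - 1) :: (b + 1) :: w)) =
      h57B N a b * φ (wtl N (a :: b :: w)) := by
    by_cases h : 1 ≤ a ∧ a < N ∧ b + 1 < N
    · have : wtl N ((a - 1) :: (b + 1) :: w) = wtl N (a :: b :: w) := by
        simp only [wtl, wt]
        push_cast [Nat.cast_sub h.1]
        ring
      rw [this]
    · rw [h57B_zero h]; ring
  have hD : h57D N a b * φ (wtl N ((a + 1) :: (b - 1) :: w)) =
      h57D N a b * φ (wtl N (a :: b :: w)) := by
    by_cases h : 1 ≤ b ∧ b < N ∧ a + 1 < N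
    · have : wtl N ((a + 1) :: (b - 1) :: w) = wtl N (a :: b :: w) := by
        simp only [wtl, wt]
        push_cast [Nat.cast_sub h.1]
        ring
      rw [this]
    · rw [h57D_zero h]; ring
  linear_combination g ((a - 1) :: (b + 1) :: w) * hB + g ((a + 1) :: (b - 1) :: w) * hD

lemma h57_Cas_add {N : ℕ} (f g : List ℕ → ℂ) (w : List ℕ) :
    Cas N (fun u => f u + g u) w = Cas N f w + Cas N g w := by
  rcases w with _ | ⟨a, _ | ⟨b, w⟩⟩
  · simp [h57_Cas_nil]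
  · simp [h57_Cas_one]
  rw [h57_Cas_expl, h57_Cas_expl, h57_Cas_expl]
  ring

lemma h57_Cas_smul {N : ℕ} (c : ℂ) (f : List ℕ → ℂ) (w : List ℕ) :
    Cas N (fun u => c * f u) w = c * Cas N f w := by
  rcases w with _ | ⟨a, _ | ⟨b, w⟩⟩
  · simp [h57_Cas_nil]
  · simp [h57_Cas_one]
  rw [h57_Cas_expl, h57_Cas_expl]
  ring

lemma h57_Cas_zero (N : ℕ) (w : List ℕ) : Cas N (fun _ => 0) w = 0 := by
  rcases w with _ | ⟨a, _ | ⟨b, w⟩⟩
  · rfl
  · rfl
  rw [h57_Cas_expl]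
  ring

/-! ### supports -/

lemma h57_not_sup {N n a b : ℕ} {w : List ℕ}
    (h : ¬ ((a :: b :: w).length = n + 2 ∧ ∀ x ∈ a :: b :: w, x < N)) :
    ¬ (w.length = n ∧ (∀ x ∈ w, x < N) ∧ a < N ∧ b < N) := by
  rintro ⟨h1, h2, h3, h4⟩
  apply h
  refine ⟨by simp [h1], ?_⟩
  intro x hx
  rcases List.mem_cons.mp hx with rfl | hx
  · exact h3
  rcases List.mem_cons.mp hx with rfl | hx
  · exact h4
  exact h2 x hx

lemma h57_sup_zero {N n : ℕ} {f : List ℕ → ℂ} (hf : Sup N (n + 2) f) {a b : ℕ} {w : List ℕ}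
    (h : ¬ (w.length = n ∧ (∀ x ∈ w, x < N) ∧ a < N ∧ b < N)) : f (a :: b :: w) = 0 := by
  apply hf
  rintro ⟨h1, h2⟩
  apply h
  refine ⟨by simpa using h1, fun x hx => h2 x (by simp [hx]), h2 a (by simp), h2 b (by simp)⟩

theorem Cas_Sup {N n : ℕ} {f : List ℕ → ℂ} (hf : Sup N (n + 2) f) : Sup N (n + 2) (Cas N f) := by
  intro w hw
  rcases w with _ | ⟨a, _ | ⟨b, w⟩⟩
  · rfl
  · rfl
  have h := h57_not_sup hw
  rw [h57_Cas_expl, h57_sup_zero hf h]
  have hB : h57B N a b * f ((a - 1) :: (b + 1) :: w) = 0 := by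
    by_cases h1 : 1 ≤ a ∧ a < N ∧ b + 1 < N
    · rw [h57_sup_zero hf (a := a - 1) (b := b + 1) (w := w), mul_zero]
      rintro ⟨h2, h3, h4, h5⟩
      exact h ⟨h2, h3, by omega, by omega⟩
    · rw [h57B_zero h1, zero_mul]
  have hD : h57D N a b * f ((a + 1) :: (b - 1) :: w) = 0 := by
    by_cases h1 : 1 ≤ b ∧ b < N ∧ a + 1 < N
    · rw [h57_sup_zero hf (a := a + 1) (b := b - 1) (w := w), mul_zero]
      rintro ⟨h2, h3, h4, h5⟩
      exact h ⟨h2, h3, by omega, by omega⟩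
    · rw [h57D_zero h1, zero_mul]
  rw [hB, hD]
  ring

/-! ### commutation -/

lemma h57_E_split (N : ℕ) (f : List ℕ → ℂ) (a b : ℕ) (w : List ℕ) :
    Eop N f (a :: b :: w) = v N ^ (wtl N w) * Eop N (fun u => f (u ++ w)) [a, b] +
      Eop N (fun u => f (a :: b :: u)) w := by
  simp only [Eop, wtl, add_zero, zpow_zero, mul_one, List.cons_append, List.nil_append]
  rw [show v N ^ (wt N b + wtl N w) = v N ^ (wt N b) * v N ^ (wtl N w) from (vz _ _ _).symm]
  ring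

lemma h57_F_split (N : ℕ) (f : List ℕ → ℂ) (a b : ℕ) (w : List ℕ) :
    Fop N f (a :: b :: w) = Fop N (fun u => f (u ++ w)) [a, b] +
      v N ^ (-(wt N a + wt N b)) * Fop N (fun u => f (a :: b :: u)) w := by
  simp only [Fop, mul_zero, add_zero, List.cons_append, List.nil_append]
  rw [show v N ^ (-(wt N a + wt N b)) = v N ^ (-wt N a) * v N ^ (-wt N b) by
    rw [vz]; congr 1; ring]
  ring

/-- `Eop` on words of two letters uses only words of two letters -/
lemma h57_E2_congr {N : ℕ} {g h : List ℕ → ℂ} (hgh : ∀ a b, g [a, b] = h [a, b]) (a b : ℕ) :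
    Eop N g [a, b] = Eop N h [a, b] := by
  simp only [Eop, hgh]

lemma h57_F2_congr {N : ℕ} {g h : List ℕ → ℂ} (hgh : ∀ a b, g [a, b] = h [a, b]) (a b : ℕ) :
    Fop N g [a, b] = Fop N h [a, b] := by
  simp only [Fop, hgh]

theorem Cas_E {N n : ℕ} (hN : 2 ≤ N) {f : List ℕ → ℂ} (hf : Sup N (n + 2) f) :
    Eop N (Cas N f) = Cas N (Eop N f) := by
  funext w
  rcases w with _ | ⟨a, _ | ⟨b, w⟩⟩
  · rfl
  · simp only [Eop, h57_Cas_one, wtl, mul_zero, add_zero]
  -- the first two strands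
  have hrest : Eop N (fun u => Cas N f (a :: b :: u)) w =
      h57A N a b * Eop N (fun u => f (a :: b :: u)) w +
      h57B N a b * Eop N (fun u => f ((a - 1) :: (b + 1) :: u)) w +
      h57D N a b * Eop N (fun u => f ((a + 1) :: (b - 1) :: u)) w := by
    have : (fun u => Cas N f (a :: b :: u)) = fun u =>
        (fun u => (fun u => h57A N a b * f (a :: b :: u)) u +
          (fun u => h57B N a b * f ((a - 1) :: (b + 1) :: u)) u) u +
          (fun u => h57D N a b * f ((a + 1) :: (b - 1) :: u)) u := by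
      funext u; rw [h57_Cas_expl]
    rw [this, Eop_add, Eop_add, Eop_smul, Eop_smul, Eop_smul]
  by_cases hw : ∀ x ∈ w, x < N
  · have hg : ∀ u, (∃ x ∈ u, N ≤ x) → Eop N (fun u => f (u ++ w)) u = 0 := by
      intro u hu
      have hs : ∀ m, m + w.length = n + 2 → Sup N m (fun u => f (u ++ w)) := by
        intro m hm u' hu'
        apply hf
        rintro ⟨h1, h2⟩
        apply hu'
        rw [List.length_append] at h1
        exact ⟨by omega, fun x hx => h2 x (by simp [hx])⟩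
      by_cases hlen : w.length ≤ n + 2
      · have h1 := hs (n + 2 - w.length) (by omega)
        apply h1.E
        rintro ⟨_, h2⟩
        obtain ⟨x, hx, hx'⟩ := hu
        have := h2 x hx
        omega
      · have h2 : (fun u => f (u ++ w)) = fun _ => 0 := by
          funext u'
          apply hf
          rintro ⟨h1, _⟩
          rw [List.length_append] at h1
          omega
        rw [h2, Eop_zero_fun]
    have h1 : Eop N (fun u => Cas N f (u ++ w)) [a, b] =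
        h57C N (Eop N (fun u => f (u ++ w))) [a, b] := by
      rw [← h57C_E hN _ hg]
      apply h57_E2_congr
      intro a b
      exact h57_Cas_eq N f a b w
    rw [h57_E_split, h1, hrest, h57_Cas_expl, h57C_expl, h57_E_split N f a b w,
      h57_E_split N f (a - 1) (b + 1) w, h57_E_split N f (a + 1) (b - 1) w]
    ring
  · -- both sides vanish
    have hsupp : ¬ ((a :: b :: w).length = n + 2 ∧ ∀ x ∈ a :: b :: w, x < N) := by
      rintro ⟨_, h⟩
      exact hw (fun x hx => h x (by simp [hx]))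
    rw [(Cas_Sup hf).E _ hsupp, (Cas_Sup hf.E) _ hsupp]

theorem Cas_F {N n : ℕ} (hN : 2 ≤ N) {f : List ℕ → ℂ} (hf : Sup N (n + 2) f) :
    Fop N (Cas N f) = Cas N (Fop N f) := by
  funext w
  rcases w with _ | ⟨a, _ | ⟨b, w⟩⟩
  · rfl
  · simp only [Fop, h57_Cas_one, mul_zero, add_zero]
    split_ifs <;> rfl
  have hrest : Fop N (fun u => Cas N f (a :: b :: u)) w =
      h57A N a b * Fop N (fun u => f (a :: b :: u)) w +
      h57B N a b * Fop N (fun u => f ((a - 1) :: (b + 1) :: u)) w +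
      h57D N a b * Fop N (fun u => f ((a + 1) :: (b - 1) :: u)) w := by
    have : (fun u => Cas N f (a :: b :: u)) = fun u =>
        (fun u => (fun u => h57A N a b * f (a :: b :: u)) u +
          (fun u => h57B N a b * f ((a - 1) :: (b + 1) :: u)) u) u +
          (fun u => h57D N a b * f ((a + 1) :: (b - 1) :: u)) u := by
      funext u; rw [h57_Cas_expl]
    rw [this, Fop_add, Fop_add, Fop_smul, Fop_smul, Fop_smul]
  have hg : ∀ u, (∃ x ∈ u, N ≤ x) → (fun u => f (u ++ w)) u = 0 := by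
    rintro u ⟨x, hx, hx'⟩
    apply hf
    rintro ⟨_, h2⟩
    have := h2 x (by simp [hx])
    omega
  have h1 : Fop N (fun u => Cas N f (u ++ w)) [a, b] =
      h57C N (Fop N (fun u => f (u ++ w))) [a, b] := by
    rw [← h57C_F hN _ hg]
    apply h57_F2_congr
    intro a b
    exact h57_Cas_eq N f a b w
  have hB : h57B N a b * v N ^ (-(wt N (a - 1) + wt N (b + 1))) =
      h57B N a b * v N ^ (-(wt N a + wt N b)) := by
    by_cases h : 1 ≤ a ∧ a < N ∧ b + 1 < N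
    · have : wt N (a - 1) + wt N (b + 1) = wt N a + wt N b := by
        simp only [wt]
        push_cast [Nat.cast_sub h.1]
        ring
      rw [this]
    · rw [h57B_zero h]; ring
  have hD : h57D N a b * v N ^ (-(wt N (a + 1) + wt N (b - 1))) =
      h57D N a b * v N ^ (-(wt N a + wt N b)) := by
    by_cases h : 1 ≤ b ∧ b < N ∧ a + 1 < N
    · have : wt N (a + 1) + wt N (b - 1) = wt N a + wt N b := by
        simp only [wt]
        push_cast [Nat.cast_sub h.1]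
        ring
      rw [this]
    · rw [h57D_zero h]; ring
  rw [h57_F_split, h1, hrest, h57_Cas_expl, h57C_expl, h57_F_split N f a b w,
    h57_F_split N f (a - 1) (b + 1) w, h57_F_split N f (a + 1) (b - 1) w]
  linear_combination (-Fop N (fun u => f ((a - 1) :: (b + 1) :: u)) w) * hB -
    Fop N (fun u => f ((a + 1) :: (b - 1) :: u)) w * hD

/-! ### one strand to the left -/

lemma h57_CasK1_cons (N : ℕ) (f : List ℕ → ℂ) (x : ℕ) (w : List ℕ) :
    CasK N 1 f (x :: w) = Cas N (fun u => f (x :: u)) w := rfl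

theorem Cas1_E {N n : ℕ} (hN : 2 ≤ N) {f : List ℕ → ℂ} (hf : Sup N (n + 3) f) :
    Eop N (CasK N 1 f) = CasK N 1 (Eop N f) := by
  funext w
  rcases w with _ | ⟨x, w⟩
  · rfl
  rw [h57_CasK1_cons]
  have h1 : Eop N (CasK N 1 f) (x :: w) = ecoef N (x + 1) * v N ^ (wtl N w) *
      Cas N (fun u => f ((x + 1) :: u)) w + Eop N (Cas N (fun u => f (x :: u))) w := by
    simp only [Eop, h57_CasK1_cons]
  have h2 : (fun u => Eop N f (x :: u)) = fun u =>
      (fun u => (fun y => ecoef N (x + 1) * v N ^ y) (wtl N u) *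
        (fun u => f ((x + 1) :: u)) u) u + Eop N (fun u => f (x :: u)) u := by
    funext u; rfl
  rw [h1, h2, h57_Cas_add, h57_Cas_wtl (N := N) (fun y => ecoef N (x + 1) * v N ^ y),
    Cas_E hN (hf.cons x)]

lemma h57_CasK1_Sup {N n : ℕ} {f : List ℕ → ℂ} (hf : Sup N (n + 3) f) :
    Sup N (n + 3) (CasK N 1 f) := by
  intro w hw
  rcases w with _ | ⟨x, w⟩
  · rfl
  rw [h57_CasK1_cons]
  by_cases hx : x < N
  · apply Cas_Sup (hf.cons x)
    rintro ⟨h1, h2⟩
    apply hw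
    refine ⟨by simp [h1], ?_⟩
    intro y hy
    rcases List.mem_cons.mp hy with rfl | hy
    · exact hx
    · exact h2 y hy
  · rw [hf.cons_zero (by omega), h57_Cas_zero]

/-! ### invariant vectors -/

theorem H0_Cas {N : ℕ} (hN : 2 ≤ N) {f : List ℕ → ℂ} (hf : H0 N f) : H0 N (Cas N f) where
  sup := Cas_Sup (n := 1) hf.sup
  kerE := by
    rw [Cas_E (n := 1) hN hf.sup, hf.kerE]
    funext w
    exact h57_Cas_zero N w
  lev := by
    intro a b c h
    rw [h57_Cas_expl, hf.lev a b c h]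
    have hB : h57B N a b * f [a - 1, b + 1, c] = 0 := by
      by_cases h1 : 1 ≤ a ∧ a < N ∧ b + 1 < N
      · rw [hf.lev _ _ _ (by omega), mul_zero]
      · rw [h57B_zero h1, zero_mul]
    have hD : h57D N a b * f [a + 1, b - 1, c] = 0 := by
      by_cases h1 : 1 ≤ b ∧ b < N ∧ a + 1 < N
      · rw [hf.lev _ _ _ (by omega), mul_zero]
      · rw [h57D_zero h1, zero_mul]
    rw [hB, hD]
    ring

lemma h57_CasK1_expl (N : ℕ) (f : List ℕ → ℂ) (a b c : ℕ) : CasK N 1 f [a, b, c] =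
    h57A N b c * f [a, b, c] + h57B N b c * f [a, b - 1, c + 1] +
      h57D N b c * f [a, b + 1, c - 1] := by
  rw [h57_CasK1_cons, h57_Cas_expl]

theorem H0_Cas1 {N : ℕ} (hN : 2 ≤ N) {f : List ℕ → ℂ} (hf : H0 N f) : H0 N (CasK N 1 f) where
  sup := h57_CasK1_Sup (n := 0) hf.sup
  kerE := by
    rw [Cas1_E (n := 0) hN hf.sup, hf.kerE]
    funext w
    rcases w with _ | ⟨x, w⟩
    · rfl
    · rw [h57_CasK1_cons]
      exact h57_Cas_zero N w
  lev := by
    intro a b c h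
    rw [h57_CasK1_expl, hf.lev a b c h]
    have hB : h57B N b c * f [a, b - 1, c + 1] = 0 := by
      by_cases h1 : 1 ≤ b ∧ b < N ∧ c + 1 < N
      · rw [hf.lev _ _ _ (by omega), mul_zero]
      · rw [h57B_zero h1, zero_mul]
    have hD : h57D N b c * f [a, b + 1, c - 1] = 0 := by
      by_cases h1 : 1 ≤ c ∧ c < N ∧ b + 1 < N
      · rw [hf.lev _ _ _ (by omega), mul_zero]
      · rw [h57D_zero h1, zero_mul]
    rw [hB, hD]
    ring

/-! ### coordinates -/

lemma h57_ker1 {N : ℕ} (hN : 2 ≤ N) {f : List ℕ → ℂ} (hf : H0 N f) (m c : ℕ) :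
    gg N f m 1 c = v N ^ (2 * (c : ℤ) + 1) * gg N f m 0 (c + 1) +
      v N ^ (-1 : ℤ) * gg N f (m + 1) 0 c := by
  have h := ker_sol hN (Sup3_iff.mp hf.sup) hf.kerE 1 (by omega) m c
  rw [sum_range_succ, sum_range_one] at h
  rw [h]
  have e1 : qb N 1 0 = 1 := qb_zero_right N 1
  have e2 : qb N 1 1 = 1 := qb_self N 1
  have e3 : ex3 1 c 0 = 2 * (c : ℤ) + 1 := by unfold ex3; push_cast; ring
  have e4 : ex3 1 c 1 = -1 := by unfold ex3; push_cast; ring
  rw [e1, e2, e3, e4]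
  simp

lemma h57_vd_sq {N : ℕ} (hN : 2 ≤ N) (l : ℕ) (hl : l ≤ N) :
    (v N - (v N)⁻¹) ^ 2 * ecoef N l = TB.bb N l := by
  rw [ecoef_eq hN hl]
  have h := qi_mul_vd hN l
  have h2 := v_sub_eq N l
  have h3 : TB.bb N l = ((-(sn N l) ^ 2 : ℝ) : ℂ) := by
    unfold TB.bb sn TB.sb
    congr 4
    push_cast; ring_nf
  rw [h3]
  have h4 : ((v N - (v N)⁻¹) * qi N l) = Complex.I * (sn N l : ℝ) := by
    rw [mul_comm, h, h2]
  calc (v N - (v N)⁻¹) ^ 2 * qi N l ^ 2 = ((v N - (v N)⁻¹) * qi N l) ^ 2 := by ring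
    _ = _ := by
      rw [h4, mul_pow, Complex.I_sq]; push_cast; ring

lemma h57_lam {N : ℕ} (hN : 2 ≤ N) (l : ℕ) :
    v N ^ (-1 - 2 * (l : ℤ)) + v N ^ (1 + 2 * (l : ℤ)) = TB.lam N l := by
  unfold TB.lam TB.lamR
  rw [v_zpow, v_zpow]
  have h0 : (N : ℂ) ≠ 0 := by exact_mod_cast (by omega : N ≠ 0)
  have h1 : ((-1 - 2 * (l : ℤ) : ℤ) : ℂ) * (Real.pi * Complex.I / N) =
      (-((Real.pi * ((2 * l + 1) / N) : ℝ) : ℂ)) * Complex.I := by
    push_cast; ring
  have h2 : ((1 + 2 * (l : ℤ) : ℤ) : ℂ) * (Real.pi * Complex.I / N) =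
      (((Real.pi * ((2 * l + 1) / N) : ℝ) : ℂ)) * Complex.I := by
    push_cast; ring
  rw [h1, h2]
  push_cast
  rw [Complex.cos]
  ring

lemma h57_gau_succ (N l : ℕ) : gau N (l + 1) = gau N l * v N ^ (2 * (l : ℤ) + 3) := by
  unfold gau
  rw [vz]; congr 1; push_cast; ring

lemma h57_v_2N {N : ℕ} (hN : 2 ≤ N) (x : ℤ) : v N ^ (2 * (N : ℤ) + x) = v N ^ x := by
  rw [zpow_add₀ (v_ne N), mul_comm (2 : ℤ), zpow_mul, v_zpow_self hN]
  norm_num

/-- the action of the Casimir operator on coordinates, `l ≥ 1` -/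
lemma h57_gg_Cas {N : ℕ} (hN : 2 ≤ N) {f : List ℕ → ℂ} (hf : H0 N f) (l : ℕ) (hl : l + 1 < N) :
    gg N (Cas N f) (l + 1) 0 (N - 1 - (l + 1)) = TB.lam N (l + 1 : ℕ) *
      gg N f (l + 1) 0 (N - 1 - (l + 1)) +
      TB.bb N (l + 1 : ℕ) * v N ^ (-(2 * (l : ℤ) + 3)) * gg N f l 0 (N - 1 - l) := by
  obtain ⟨c, hc⟩ : ∃ c, N = l + c + 2 := ⟨N - (l + 2), by omega⟩
  have e1 : N - 1 - (l + 1) = c := by omega
  have e2 : N - 1 - l = c + 1 := by omega
  rw [e1, e2]
  have hker := h57_ker1 hN hf l c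
  have hw : w2 N (l + 1) = w2 N l * ecoef N (l + 1) := w2_succ hN (by omega)
  have hw0 : w2 N 0 = 1 := by simp [w2, qfac_zero]
  have hec1 : ecoef N 1 = 1 := by
    rw [ecoef_eq hN (by omega)]
    have : qi N ((1 : ℕ) : ℤ) = 1 := by exact_mod_cast qi_one hN
    rw [this]; ring
  have hw1 : w2 N 1 = 1 := by
    have := w2_succ (a := 0) hN (by omega)
    rw [hw0, Nat.zero_add, hec1] at this
    rw [this]; ring
  have hA : h57A N (l + 1) 0 = (v N - (v N)⁻¹) ^ 2 * (ecoef N (l + 1) * v N ^ (wt N 0)) +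
      (v N ^ (wt N (l + 1) + wt N 0 + 1) + v N ^ (-(wt N (l + 1) + wt N 0) - 1)) := by
    unfold h57A
    rw [if_pos (by omega), if_neg (by omega)]
    ring
  have hB : h57B N (l + 1) 0 = (v N - (v N)⁻¹) ^ 2 := by
    unfold h57B
    rw [if_pos (by omega), Nat.zero_add, hec1, mul_one]
  have hD : h57D N (l + 1) 0 = 0 := h57D_zero (by omega)
  have hK := h57_vd_sq hN (l + 1) (by omega)
  have hL := h57_lam hN (l + 1)
  have z1 : v N ^ (wt N 0) = - v N ^ (-1 : ℤ) := by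
    have := v_wt hN 0
    simpa using this
  have z2 : v N ^ (wt N (l + 1) + wt N 0 + 1) = v N ^ (-1 - 2 * ((l + 1 : ℕ) : ℤ)) := by
    rw [← h57_v_2N hN (-1 - 2 * ((l + 1 : ℕ) : ℤ))]; congr 1; unfold wt; push_cast; ring
  have z3 : v N ^ (-(wt N (l + 1) + wt N 0) - 1) = v N ^ (1 + 2 * ((l + 1 : ℕ) : ℤ)) := by
    rw [← h57_v_2N hN (-(wt N (l + 1) + wt N 0) - 1)]; congr 1; unfold wt; push_cast; ring
  have z4 : v N ^ (2 * (c : ℤ) + 1) = v N ^ (-(2 * (l : ℤ) + 3)) := by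
    rw [← h57_v_2N hN (-(2 * (l : ℤ) + 3))]; congr 1
    have : (N : ℤ) = l + c + 2 := by exact_mod_cast hc
    rw [this]; ring
  rw [z4] at hker
  rw [z1] at hA
  rw [z2, z3, hL] at hA
  unfold gg at hker ⊢
  rw [h57_Cas_expl, hD, hB, hA, Nat.add_sub_cancel, hw0]
  rw [hw0, hw1] at hker
  rw [hw] at hker ⊢
  simp only [Nat.zero_add, mul_one, zero_mul, add_zero] at hker ⊢
  linear_combination ((v N - (v N)⁻¹) ^ 2 * ecoef N (l + 1)) * hker +
    (v N ^ (-(2 * (l : ℤ) + 3)) * (w2 N l * w2 N (c + 1) * f [l, 0, c + 1])) * hK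

lemma h57_gg_Cas0 {N : ℕ} (hN : 2 ≤ N) (f : List ℕ → ℂ) (c : ℕ) :
    gg N (Cas N f) 0 0 c = TB.lam N (0 : ℕ) * gg N f 0 0 c := by
  have hA : h57A N 0 0 = v N ^ (wt N 0 + wt N 0 + 1) + v N ^ (-(wt N 0 + wt N 0) - 1) := by
    unfold h57A
    rw [if_neg (by omega), if_neg (by omega)]
    ring
  have hL := h57_lam hN 0
  have z2 : v N ^ (wt N 0 + wt N 0 + 1) = v N ^ (-1 - 2 * ((0 : ℕ) : ℤ)) := by
    rw [← h57_v_2N hN (-1 - 2 * ((0 : ℕ) : ℤ))]; congr 1; unfold wt; push_cast; ring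
  have z3 : v N ^ (-(wt N 0 + wt N 0) - 1) = v N ^ (1 + 2 * ((0 : ℕ) : ℤ)) := by
    rw [← h57_v_2N hN (-(wt N 0 + wt N 0) - 1)]; congr 1; unfold wt; push_cast; ring
  rw [z2, z3, hL] at hA
  unfold gg
  rw [h57_Cas_expl, hA, h57B_zero (by omega), h57D_zero (by omega)]
  ring

theorem crd_Cas {N : ℕ} (hN : 2 ≤ N) {f : List ℕ → ℂ} (hf : H0 N f) :
    crd N (Cas N f) = LM N *ᵥ crd N f := by
  funext a
  obtain ⟨a, ha⟩ := a
  unfold Matrix.mulVec dotProduct
  rcases a with _ | l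
  · rw [sum_eq_single (⟨0, ha⟩ : Fin N)]
    · unfold LM crd
      simp only [if_true]
      rw [h57_gg_Cas0 hN]
      ring
    · intro j _ hj
      unfold LM
      have h1 : (0 : ℕ) ≠ (j : ℕ) := fun h => hj (Fin.ext h.symm)
      simp only
      rw [if_neg h1, if_neg (by omega), zero_mul]
    · intro h; exact absurd (mem_univ _) h
  · have hl : l < N := by omega
    rw [sum_eq_add (⟨l + 1, ha⟩ : Fin N) (⟨l, hl⟩ : Fin N)]
    · unfold LM crd
      simp only [if_true]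
      rw [if_neg (by omega)]
      have hg := h57_gau_succ N l
      have z : v N ^ (2 * (l : ℤ) + 3) * v N ^ (-(2 * (l : ℤ) + 3)) = 1 := by
        rw [vz, add_neg_cancel, zpow_zero]
      rw [h57_gg_Cas hN hf l ha, hg]
      linear_combination (gau N l * TB.bb N (l + 1) * gg N f l 0 (N - 1 - l)) * z
    · intro h; have := Fin.ext_iff.mp h; simp only at this; omega
    · intro j _ hj
      unfold LM
      simp only
      rw [if_neg (fun h => hj.1 (Fin.ext h.symm)), if_neg (fun h => hj.2 (Fin.ext (by simp only; omega))),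
        zero_mul]
    · intro h; exact absurd (mem_univ _) h
    · intro h; exact absurd (mem_univ _) h

/-- the action of the Casimir operator of the last two strands on coordinates -/
lemma h57_gg_Cas1 {N : ℕ} (hN : 2 ≤ N) {f : List ℕ → ℂ} (hf : H0 N f) (l : ℕ) (hl : l + 1 < N) :
    gg N (CasK N 1 f) l 0 (N - 1 - l) = TB.lam N l * gg N f l 0 (N - 1 - l) +
      TB.bb N (l + 1 : ℕ) * v N ^ (2 * (l : ℤ) + 3) * gg N f (l + 1) 0 (N - 1 - (l + 1)) := by
  obtain ⟨c, hc⟩ : ∃ c, N = l + c + 2 := ⟨N - (l + 2), by omega⟩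
  have e1 : N - 1 - (l + 1) = c := by omega
  have e2 : N - 1 - l = c + 1 := by omega
  rw [e1, e2]
  have hker := h57_ker1 hN hf l c
  have hw : w2 N (c + 1) = w2 N c * ecoef N (c + 1) := w2_succ hN (by omega)
  have hw0 : w2 N 0 = 1 := by simp [w2, qfac_zero]
  have hec1 : ecoef N 1 = 1 := by
    rw [ecoef_eq hN (by omega)]
    have : qi N ((1 : ℕ) : ℤ) = 1 := by exact_mod_cast qi_one hN
    rw [this]; ring
  have hw1 : w2 N 1 = 1 := by
    have := w2_succ (a := 0) hN (by omega)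
    rw [hw0, Nat.zero_add, hec1] at this
    rw [this]; ring
  have hec : ecoef N (c + 1) = ecoef N (l + 1) := by
    unfold ecoef
    rw [show N - (c + 1) = l + 1 by omega, show N - (l + 1) = c + 1 by omega]; ring
  have hA : h57A N 0 (c + 1) = (v N - (v N)⁻¹) ^ 2 * (v N ^ (-wt N 0) * ecoef N (c + 1)) +
      (v N ^ (wt N 0 + wt N (c + 1) + 1) + v N ^ (-(wt N 0 + wt N (c + 1)) - 1)) := by
    unfold h57A
    rw [if_neg (by omega), if_pos (by omega)]
    ring
  have hB : h57B N 0 (c + 1) = 0 := h57B_zero (by omega)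
  have hD : h57D N 0 (c + 1) = (v N - (v N)⁻¹) ^ 2 * (v N ^ (-wt N 0) * v N ^ (wt N c)) := by
    unfold h57D
    rw [if_pos (by omega), Nat.zero_add, hec1, Nat.add_sub_cancel]
    ring
  have hK := h57_vd_sq hN (l + 1) (by omega)
  have hL := h57_lam hN l
  have hcN : (N : ℤ) = l + c + 2 := by exact_mod_cast hc
  have z1 : v N ^ (-wt N 0) = - v N ^ (1 : ℤ) := by
    have := v_neg_wt hN 0
    simpa using this
  have z1' : v N ^ (wt N c) = - v N ^ (-1 - 2 * (c : ℤ)) := v_wt hN c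
  have z2 : v N ^ (wt N 0 + wt N (c + 1) + 1) = v N ^ (1 + 2 * (l : ℤ)) := by
    congr 1; unfold wt; push_cast; rw [hcN]; ring
  have z3 : v N ^ (-(wt N 0 + wt N (c + 1)) - 1) = v N ^ (-1 - 2 * (l : ℤ)) := by
    congr 1; unfold wt; push_cast; rw [hcN]; ring
  have z4 : v N ^ (1 : ℤ) * v N ^ (-1 - 2 * (c : ℤ)) * v N ^ (2 * (c : ℤ) + 1) = v N ^ (1 : ℤ) := by
    rw [vz, vz]; congr 1; ring
  have z5 : v N ^ (1 : ℤ) * v N ^ (-1 - 2 * (c : ℤ)) * v N ^ (-1 : ℤ) = v N ^ (2 * (l : ℤ) + 3) := by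
    rw [vz, vz, ← h57_v_2N hN (1 + (-1 - 2 * (c : ℤ)) + -1)]; congr 1; rw [hcN]; ring
  rw [z2, z3, z1] at hA
  rw [z1, z1'] at hD
  unfold gg at hker ⊢
  rw [h57_CasK1_expl, hD, hB, hA, Nat.add_sub_cancel, Nat.zero_add, hw0]
  rw [hw0, hw1] at hker
  rw [hw, hec] at hker ⊢
  simp only [mul_one] at hker ⊢
  linear_combination ((v N - (v N)⁻¹) ^ 2 * ecoef N (l + 1) * (v N ^ (1 : ℤ) *
    v N ^ (-1 - 2 * (c : ℤ)))) * hker +
    (v N ^ (2 * (l : ℤ) + 3) * (w2 N (l + 1) * w2 N c * f [l + 1, 0, c])) * hK +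
    (w2 N l * (w2 N c * ecoef N (l + 1)) * f [l, 0, c + 1]) * hL +
    ((v N - (v N)⁻¹) ^ 2 * ecoef N (l + 1) * (w2 N l * (w2 N c * ecoef N (l + 1)) *
      f [l, 0, c + 1])) * z4 +
    ((v N - (v N)⁻¹) ^ 2 * ecoef N (l + 1) * (w2 N (l + 1) * w2 N c * f [l + 1, 0, c])) * z5

lemma h57_gg_Cas1' {N : ℕ} (hN : 2 ≤ N) (f : List ℕ → ℂ) :
    gg N (CasK N 1 f) (N - 1) 0 0 = TB.lam N (N - 1 : ℕ) * gg N f (N - 1) 0 0 := by
  have hA : h57A N 0 0 = v N ^ (wt N 0 + wt N 0 + 1) + v N ^ (-(wt N 0 + wt N 0) - 1) := by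
    unfold h57A
    rw [if_neg (by omega), if_neg (by omega)]
    ring
  have hL := h57_lam hN (N - 1)
  have hcN : ((N - 1 : ℕ) : ℤ) = (N : ℤ) - 1 := by omega
  have z2 : v N ^ (wt N 0 + wt N 0 + 1) = v N ^ (1 + 2 * ((N - 1 : ℕ) : ℤ)) := by
    congr 1; unfold wt; rw [hcN]; push_cast; ring
  have z3 : v N ^ (-(wt N 0 + wt N 0) - 1) = v N ^ (-1 - 2 * ((N - 1 : ℕ) : ℤ)) := by
    congr 1; unfold wt; rw [hcN]; push_cast; ring
  rw [z2, z3, add_comm, hL] at hA
  unfold gg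
  rw [h57_CasK1_expl, hA, h57B_zero (by omega), h57D_zero (by omega)]
  ring

theorem crd_Cas1 {N : ℕ} (hN : 2 ≤ N) {f : List ℕ → ℂ} (hf : H0 N f) :
    crd N (CasK N 1 f) = (LM N)ᵀ *ᵥ crd N f := by
  funext a
  obtain ⟨l, ha⟩ := a
  unfold Matrix.mulVec dotProduct
  by_cases hl : l + 1 < N
  · rw [sum_eq_add (⟨l, ha⟩ : Fin N) (⟨l + 1, hl⟩ : Fin N)]
    · simp only [Matrix.transpose_apply]
      unfold LM crd
      simp only [if_true]
      rw [if_neg (by omega)]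
      have hg := h57_gau_succ N l
      rw [h57_gg_Cas1 hN hf l hl, hg]
      ring
    · intro h; have := Fin.ext_iff.mp h; simp only at this; omega
    · intro j _ hj
      simp only [Matrix.transpose_apply]
      unfold LM
      simp only
      rw [if_neg (fun h => hj.1 (Fin.ext h)), if_neg (fun h => hj.2 (Fin.ext (by simp only; omega))),
        zero_mul]
    · intro h; exact absurd (mem_univ _) h
    · intro h; exact absurd (mem_univ _) h
  · have hlN : l = N - 1 := by omega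
    subst hlN
    rw [sum_eq_single (⟨N - 1, ha⟩ : Fin N)]
    · simp only [Matrix.transpose_apply]
      unfold LM crd
      simp only [if_true]
      rw [Nat.sub_self, h57_gg_Cas1' hN]
      ring
    · intro j _ hj
      simp only [Matrix.transpose_apply]
      unfold LM
      have h1 : (j : ℕ) ≠ N - 1 := fun h => hj (Fin.ext h)
      have h2 := j.2
      simp only
      rw [if_neg h1, if_neg (by omega), zero_mul]
    · intro h; exact absurd (mem_univ _) h

end Pool.Agent.Helper9.Kashaev
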