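import Pool.Agent.Helper9.TG.TreeDefs
import Pool.Agent.Helper9.TF.StateB

/-!
# The Casimir operator of two strands, definitions
-/

namespace Pool.Agent.Helper9.Kashaev

open Pool.Agent.Helper9.TG
open Pool.Agent.Helper9 (TB.lam TB.bb)
open scoped Matrix

/-- the Casimir operator of the first two strands -/
noncomputable def Cas (N : ℕ) (f : List ℕ → ℂ) : List ℕ → ℂ
  | a :: b :: w => (v N - (v N)⁻¹) ^ 2 * Fop N (Eop N (fun u => f (u ++ w))) [a, b] +
      (v N ^ (wt N a + wt N b + 1) + v N ^ (-(wt N a + wt N b) - 1)) * f (a :: b :: w)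
  | _ => 0

/-- the same, with `k` strands to the left -/
noncomputable def CasK (N : ℕ) : ℕ → (List ℕ → ℂ) → List ℕ → ℂ
  | 0, f, w => Cas N f w
  | _ + 1, _, [] => 0
  | k + 1, f, x :: w => CasK N k (fun u => f (x :: u)) w

/-- the coordinates of an invariant vector -/
noncomputable def crd (N : ℕ) (f : List ℕ → ℂ) (l : Fin N) : ℂ := gau N l * gg N f l 0 (N - 1 - l)

/-- invariant vectors of three strands of weight `N - 1` -/
structure H0 (N : ℕ) (f : List ℕ → ℂ) : Prop where
  sup : Sup N 3 f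
  kerE : Eop N f = 0
  lev : ∀ a b c : ℕ, a + b + c ≠ N - 1 → f [a, b, c] = 0

/-- the polynomials in the Casimir operator -/
noncomputable def nC (N : ℕ) : ℕ → (List ℕ → ℂ) → List ℕ → ℂ
  | 0, f => f
  | m + 1, f => fun u => (TB.bb N (m + 1 : ℕ))⁻¹ * (Cas N (nC N m f) u - TB.lam N m * nC N m f u)

end Pool.Agent.Helper9.Kashaev
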